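import Pool.Agent.H37.CNW.Stmts
import Pool.Agent.H62.CNP.GalAs

/-!
# Row XGX: the field with group `C_p wr_Omega H` (after `H99/CNR/WGX.lean`)
-/

set_option autoImplicit false

namespace Pool.CND

theorem xgx_cast {p : ℕ} {E : Type} [Field E] [CharP E p] [Fact p.Prime] (c : ZMod p) :
    ZMod.castHom (dvd_refl p) E c = ((c.val : ℕ) : E) := by
  rw [ZMod.natCast_val, ZMod.castHom_apply]

theorem xgx_val {p : ℕ} {E : Type} [Field E] [CharP E p] [Fact p.Prime] (c d : ZMod p) :
    (((c + d).val : ℕ) : E) = ((c.val : ℕ) : E) + ((d.val : ℕ) : E) := by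
  rw [← xgx_cast, map_add, xgx_cast, xgx_cast]

theorem xgx_inj {p : ℕ} {E : Type} [Field E] [CharP E p] [Fact p.Prime] (c : ZMod p)
    (h : ((c.val : ℕ) : E) = 0) : c = 0 := by
  rw [CharP.cast_eq_zero_iff E p] at h
  have h1 := Nat.eq_zero_of_dvd_of_lt h (ZMod.val_lt c)
  exact (ZMod.val_eq_zero c).mp h1

/-- the field with its ring endomorphisms -/
theorem xgx_fld (p : ℕ) (k L H Ω : Type) [Field k] [Field L] [Algebra k L] [Group H]
    [Fintype Ω] [MulAction H Ω] (ρ : H →* (L ≃ₐ[k] L)) (r : Ω → L) (hp : p.Prime)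
    (hcL : CharP L p) (hr : ∀ h ω, ρ h (r ω) = r (h • ω))
    (hind : ∀ a : Ω → ℕ, (∃ u, ¬ p ∣ a u) →
      ∀ w : L, w ^ p - w ≠ ∑ u : Ω, (a u : L) * r u) :
    ∃ (E : Type) (_ : Field E) (i : L →+* E) (y : Ω → E),
      (∀ u, y u ^ p - y u = i (r u)) ∧
      (∀ f g : E →+* E, (∀ x, f (i x) = g (i x)) → (∀ u, f (y u) = g (y u)) → f = g) ∧
      (∀ (h : H) (v : Ω → ZMod p), ∃ φ : E →+* E, (∀ x, φ (i x) = i (ρ h x)) ∧
        ∀ u, φ (y u) = y (h • u) + (((v (h • u)).val : ℕ) : E)) ∧
      ∀ x : E, (∀ φ : E →+* E, (∀ z, φ (i z) = i z) → φ x = x) → ∃ z, x = i z := by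
  have : Fact p.Prime := ⟨hp⟩
  have : CharP (AlgebraicClosure L) p :=
    charP_of_injective_algebraMap (algebraMap L (AlgebraicClosure L)).injective p
  choose Y0 hY0 using fun u : Ω => gal_exists (p := p) (algebraMap L (AlgebraicClosure L) (r u))
  obtain ⟨e⟩ : Nonempty (Ω ≃ Fin (Fintype.card Ω)) := ⟨Fintype.equivFin Ω⟩
  obtain ⟨Y, hY⟩ : ∃ Y : Fin (Fintype.card Ω) → AlgebraicClosure L, ∀ i, Y i = Y0 (e.symm i) :=
    ⟨_, fun i => rfl⟩
  obtain ⟨_, _, hσ, hfix⟩ := gal_as p L (AlgebraicClosure L) (Fintype.card Ω)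
    (fun i => r (e.symm i)) Y (fun i => by rw [hY]; exact hY0 _) (by
      intro c hc w hw
      have h1 : ∃ i, c i ≠ 0 := by
        by_contra hn
        push Not at hn
        exact hc (funext hn)
      obtain ⟨i, hi⟩ := h1
      refine hind (fun u => (c (e u)).val) ⟨e.symm i, ?_⟩ w ?_
      · intro hd
        rw [Equiv.apply_symm_apply] at hd
        exact hi ((ZMod.val_eq_zero _).mp (Nat.eq_zero_of_dvd_of_lt hd (ZMod.val_lt _)))
      · rw [hw, ← Equiv.sum_comp e]
        refine Finset.sum_congr rfl fun u _ => ?_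
        rw [Equiv.symm_apply_apply, xgx_cast])
  have hmem : ∀ u, Y0 u ∈ IntermediateField.adjoin L (Set.range Y) := by
    intro u
    refine IntermediateField.subset_adjoin L _ ⟨e u, ?_⟩
    rw [hY, Equiv.symm_apply_apply]
  have hrange : ∀ x ∈ Set.range Y, ∃ u, x = Y0 u := by
    rintro x ⟨i, rfl⟩
    exact ⟨_, hY i⟩
  have hcE : CharP (IntermediateField.adjoin L (Set.range Y)) p :=
    charP_of_injective_algebraMap
      (algebraMap L (IntermediateField.adjoin L (Set.range Y))).injective p
  refine ⟨IntermediateField.adjoin L (Set.range Y), inferInstance,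
    algebraMap L (IntermediateField.adjoin L (Set.range Y)), fun u => ⟨Y0 u, hmem u⟩,
    fun u => Subtype.ext (hY0 u), ?_, ?_, ?_⟩
  · intro f g h1 h2
    apply RingHom.ext
    rintro ⟨x, hx⟩
    refine IntermediateField.adjoin_induction L
      (p := fun x hx => f ⟨x, hx⟩ = g ⟨x, hx⟩) ?_ ?_ ?_ ?_ ?_ hx
    · intro x hx
      obtain ⟨u, rfl⟩ := hrange x hx
      exact h2 u
    · exact h1
    · intro x y hx hy h3 h4
      have h5 : (⟨x + y, add_mem hx hy⟩ : IntermediateField.adjoin L (Set.range Y)) =
        ⟨x, hx⟩ + ⟨y, hy⟩ := rfl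
      rw [h5, map_add, map_add, h3, h4]
    · intro x hx h3
      have h5 : (⟨x⁻¹, inv_mem hx⟩ : IntermediateField.adjoin L (Set.range Y)) =
        (⟨x, hx⟩)⁻¹ := rfl
      rw [h5, map_inv₀, map_inv₀, h3]
    · intro x y hx hy h3 h4
      have h5 : (⟨x * y, mul_mem hx hy⟩ : IntermediateField.adjoin L (Set.range Y)) =
        ⟨x, hx⟩ * ⟨y, hy⟩ := rfl
      rw [h5, map_mul, map_mul, h3, h4]
  · intro h v
    obtain ⟨τ, hτ⟩ : ∃ τ : AlgebraicClosure L →+* AlgebraicClosure L, ∀ x : L,
        τ (algebraMap L _ x) = algebraMap L _ (ρ h x) :=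
      ⟨(IsAlgClosure.equivOfEquiv (AlgebraicClosure L) (AlgebraicClosure L)
        (ρ h).toRingEquiv : AlgebraicClosure L ≃+* AlgebraicClosure L),
        fun x => IsAlgClosure.equivOfEquiv_algebraMap (AlgebraicClosure L) (AlgebraicClosure L)
          (ρ h).toRingEquiv x⟩
    have h1 : ∀ u, ∃ c : ZMod p, τ (Y0 u) = Y0 (h • u) +
        ZMod.castHom (dvd_refl p) (AlgebraicClosure L) c := by
      intro u
      apply gal_root
      rw [← map_pow, ← map_sub, hY0, hτ, hY0, hr]
    choose c hc using h1
    have hst : ∀ x ∈ IntermediateField.adjoin L (Set.range Y),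
        τ x ∈ IntermediateField.adjoin L (Set.range Y) := by
      intro x hx
      refine IntermediateField.adjoin_induction L
        (p := fun x hx => τ x ∈ IntermediateField.adjoin L (Set.range Y)) ?_ ?_ ?_ ?_ ?_ hx
      · intro x hx
        obtain ⟨u, rfl⟩ := hrange x hx
        rw [hc, xgx_cast]
        exact add_mem (hmem _) (natCast_mem _ _)
      · intro x
        rw [hτ]
        exact IntermediateField.algebraMap_mem _ _
      · intro x y hx hy h3 h4
        rw [map_add]
        exact add_mem h3 h4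
      · intro x hx h3
        rw [map_inv₀]
        exact inv_mem h3
      · intro x y hx hy h3 h4
        rw [map_mul]
        exact mul_mem h3 h4
    obtain ⟨τE, hτE⟩ : ∃ τE : IntermediateField.adjoin L (Set.range Y) →+*
        IntermediateField.adjoin L (Set.range Y), ∀ x, (τE x : AlgebraicClosure L) = τ x :=
      ⟨{ toFun := fun x => ⟨τ x.1, hst x.1 x.2⟩
         map_one' := Subtype.ext (map_one τ)
         map_mul' := fun a b => Subtype.ext (map_mul τ _ _)
         map_zero' := Subtype.ext (map_zero τ)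
         map_add' := fun a b => Subtype.ext (map_add τ _ _) }, fun x => rfl⟩
    obtain ⟨σ, hσ1⟩ := hσ (fun i => v (e.symm i) - c (h⁻¹ • e.symm i))
    have hσ2 : ∀ w : Ω, σ ⟨Y0 w, hmem w⟩ = ⟨Y0 w, hmem w⟩ +
        (((v w - c (h⁻¹ • w)).val : ℕ) : IntermediateField.adjoin L (Set.range Y)) := by
      intro w
      apply Subtype.ext
      have h3 := hσ1 (e w)
      have h4 : (⟨Y (e w), IntermediateField.subset_adjoin L _ ⟨e w, rfl⟩⟩ :
          IntermediateField.adjoin L (Set.range Y)) = ⟨Y0 w, hmem w⟩ := by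
        apply Subtype.ext
        show Y (e w) = Y0 w
        rw [hY, Equiv.symm_apply_apply]
      rw [h4, Equiv.symm_apply_apply, hY, Equiv.symm_apply_apply, xgx_cast] at h3
      rw [h3]
      rfl
    refine ⟨(σ : IntermediateField.adjoin L (Set.range Y) →+*
        IntermediateField.adjoin L (Set.range Y)).comp τE, ?_, ?_⟩
    · intro x
      have h3 : τE (algebraMap L _ x) = algebraMap L _ (ρ h x) := by
        apply Subtype.ext
        rw [hτE]
        exact hτ x
      show σ (τE _) = _
      rw [h3]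
      exact σ.commutes _
    · intro u
      have h3 : τE ⟨Y0 u, hmem u⟩ = ⟨Y0 (h • u), hmem _⟩ +
          (((c u).val : ℕ) : IntermediateField.adjoin L (Set.range Y)) := by
        apply Subtype.ext
        rw [hτE]
        show τ (Y0 u) = _
        rw [hc, xgx_cast]
        rfl
      show σ (τE _) = _
      rw [h3, map_add, hσ2, map_natCast, inv_smul_smul, add_assoc, ← xgx_val,
        sub_add_cancel]
  · intro x hx
    obtain ⟨z, hz⟩ := hfix x (fun σ => hx (σ : IntermediateField.adjoin L (Set.range Y) →+*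
        IntermediateField.adjoin L (Set.range Y)) fun z => σ.commutes z)
    exact ⟨z, hz.symm⟩

/-- Row XGX -/
theorem xgx_thm : S_XGX := by
  intro p k L H Ω _ _ _ _ _ _ _ ρ r hp hck hinj hr hind
  have : Fact p.Prime := ⟨hp⟩
  have hcL : CharP L p := charP_of_injective_algebraMap (algebraMap k L).injective p
  obtain ⟨E, _, i, y, hy, huniq, hex, hfix⟩ := xgx_fld p k L H Ω ρ r hp hcL hr hind
  have hcE : CharP E p := charP_of_injective_ringHom i.injective p
  choose φ hφ1 hφ2 using hex
  let algE : Algebra k E := (i.comp (algebraMap k L)).toAlgebra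
  have halg : ∀ c : k, algebraMap k E c = i (algebraMap k L c) := fun c => rfl
  let j : L →ₐ[k] E := { i with commutes' := fun c => rfl }
  have hj : ∀ x, j x = i x := fun x => rfl
  let ψ : (PW p H Ω) → (E →ₐ[k] E) := fun g =>
    { φ g.right (fun u => Multiplicative.toAdd (g.left u)) with
      commutes' := fun c => by
        show φ g.right (fun u => Multiplicative.toAdd (g.left u)) (algebraMap k E c) = _
        rw [halg, hφ1, AlgEquiv.commutes] }
  have hψ1 : ∀ g x, ψ g (i x) = i (ρ g.right x) := fun g x => hφ1 _ _ x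
  have hψ2 : ∀ g u, ψ g (y u) =
      y (g.right • u) + (((Multiplicative.toAdd (g.left (g.right • u))).val : ℕ) : E) :=
    fun g u => hφ2 _ _ u
  have hext : ∀ f g : E →ₐ[k] E, (∀ x, f (i x) = g (i x)) → (∀ u, f (y u) = g (y u)) →
      f = g := by
    intro f g h1 h2
    have h3 := huniq f.toRingHom g.toRingHom h1 h2
    apply AlgHom.ext
    intro x
    exact congrArg (fun F : E →+* E => F x) h3
  let Φ : (PW p H Ω) →* (E →ₐ[k] E) :=
    { toFun := ψ
      map_one' := by
        apply hext
        · intro x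
          rw [hψ1]
          simp
        · intro u
          rw [hψ2]
          simp
      map_mul' := by
        intro g g'
        apply hext
        · intro x
          rw [hψ1, AlgHom.mul_apply, hψ1, hψ1, SemidirectProduct.mul_right, map_mul,
            AlgEquiv.mul_apply]
        · intro u
          rw [hψ2, AlgHom.mul_apply, hψ2, map_add, hψ2, map_natCast]
          have ha : (mulAutArrow g.right g'.left) ((g.right * g'.right) • u) =
              g'.left (g'.right • u) := by
            show g'.left (g.right⁻¹ • ((g.right * g'.right) • u)) = _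
            rw [mul_smul, inv_smul_smul]
          have hb : (g * g').left ((g.right * g'.right) • u) =
              g.left ((g.right * g'.right) • u) * g'.left (g'.right • u) := by
            rw [SemidirectProduct.mul_left, Pi.mul_apply]
            exact congrArg (fun z => g.left ((g.right * g'.right) • u) * z) ha
          rw [SemidirectProduct.mul_right, hb, toAdd_mul, xgx_val, mul_smul]
          ring }
  let ρ' : (PW p H Ω) →* (E ≃ₐ[k] E) :=
    (AlgEquiv.algHomUnitsEquiv k E).toMonoidHom.comp Φ.toHomUnits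
  have hρ : ∀ g x, ρ' g x = ψ g x := fun g x => rfl
  refine ⟨E, inferInstance, algE, j, y, ρ', ?_, hy, ?_, ?_, ?_⟩
  · rw [injective_iff_map_eq_one]
    intro g hg
    have h1 : g.right = 1 := by
      apply hinj
      rw [map_one]
      apply AlgEquiv.ext
      intro x
      apply i.injective
      rw [← hψ1, ← hρ, hg]
      rfl
    have h2 : g.left = 1 := by
      funext u
      have h3 := hψ2 g u
      rw [← hρ, hg, h1, one_smul] at h3
      have h4 : (((Multiplicative.toAdd (g.left u)).val : ℕ) : E) = 0 := by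
        have h5 : (1 : E ≃ₐ[k] E) (y u) = y u := rfl
        rw [h5] at h3
        linear_combination -h3
      have h6 := xgx_inj _ h4
      exact h6
    exact SemidirectProduct.ext h2 h1
  · intro g x
    exact hψ1 g x
  · intro g u
    exact hψ2 g u
  · intro x hx
    obtain ⟨z, hz⟩ := hfix x (by
      intro f hf
      have h1 : ∀ u, ∃ c : ZMod p, f (y u) = y u + ZMod.castHom (dvd_refl p) E c := by
        intro u
        apply gal_root
        rw [← map_pow, ← map_sub, hy, hf]
      choose c hc using h1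
      have h2 : f = (ψ ⟨fun u => Multiplicative.ofAdd (c u), 1⟩).toRingHom := by
        apply huniq
        · intro x
          rw [hf]
          have h3 := hψ1 ⟨fun u => Multiplicative.ofAdd (c u), 1⟩ x
          rw [map_one] at h3
          exact h3.symm
        · intro u
          rw [hc, xgx_cast]
          have h3 := hψ2 ⟨fun u => Multiplicative.ofAdd (c u), 1⟩ u
          rw [one_smul] at h3
          exact h3.symm
      rw [h2]
      exact hx ⟨fun u => Multiplicative.ofAdd (c u), 1⟩ rfl)
    exact ⟨z, hz⟩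

end Pool.CND
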